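import Mathlib

set_option autoImplicit false

namespace Pool.Agent.Results.MP_8835a9_co.Long

def Mat {R : Type} [CommRing R] (l : List R) : Matrix (Fin 2) (Fin 2) R :=
  (l.reverse.map (fun a => !![a, -1; 1, 0])).prod

def Sol {R : Type} [CommRing R] (l : List R) : Prop := Mat l = 1 ∨ Mat l = -1

def Red {R : Type} [CommRing R] (l : List R) : Prop :=
  ∃ (a₁ aₙ b₁ bₘ : R) (a b : List R), a ≠ [] ∧ b ≠ [] ∧ Sol (a₁ :: a ++ [aₙ]) ∧
    Sol (b₁ :: b ++ [bₘ]) ∧ ((a₁ + bₘ) :: a ++ (aₙ + b₁) :: b ~r l ∨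
      (a₁ + bₘ) :: a ++ (aₙ + b₁) :: b ~r l.reverse)

def A {R : Type} [CommRing R] (k : R) : Matrix (Fin 2) (Fin 2) R := !![k, -1; 1, 0]

theorem rep {R : Type} [CommRing R] (j : ℕ) (k : R) : Mat (List.replicate j k) = A k ^ j := by
  simp [Mat, A]

theorem two {R : Type} [CommRing R] (j : ℕ) :
    A (2 : R) ^ j = !![(j : R) + 1, -(j : R); (j : R), 1 - (j : R)] := by
  induction j with
  | zero => simp [Matrix.one_fin_two]
  | succ j ih =>
    rw [pow_succ, ih]
    ext a b
    fin_cases a <;> fin_cases b <;> simp [A, Matrix.mul_apply, Fin.sum_univ_two] <;> ring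

theorem zero (j : ℕ) : A (0 : ZMod 3) ^ j = A 0 ^ (j % 4) := pow_eq_pow_mod j (by decide)

theorem map {R S : Type} [CommRing R] [CommRing S] (f : R →+* S) (k : R) (j : ℕ) (a b : Fin 2) :
    f ((A k ^ j) a b) = (A (f k) ^ j) a b := by
  have : f.mapMatrix (A k) = A (f k) := by
    ext a b
    fin_cases a <;> fin_cases b <;> simp [A]
  rw [← this, ← map_pow]
  rfl

theorem result (K : ℕ) : ∃ N ≥ 2, ∃ l : List (ZMod N),
    3 ≤ l.length ∧ Sol l ∧ ¬ Red l ∧ N + K ≤ l.length := by
  obtain ⟨M, hM⟩ : ∃ M, M = 6 * K + 7 := ⟨_, rfl⟩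
  let f := ZMod.castHom (Nat.dvd_mul_right 3 M) (ZMod 3)
  let g := ZMod.castHom (Nat.dvd_mul_left M 3) (ZMod M)
  have fk : f ((M + 2 : ℕ) : ZMod (3 * M)) = 0 := by
    rw [map_natCast, ZMod.natCast_eq_zero_iff]; omega
  have gk : g ((M + 2 : ℕ) : ZMod (3 * M)) = 2 := by rw [map_natCast]; simp
  have c4 : Nat.Coprime 4 M :=
    Nat.Coprime.pow_left 2 ((Nat.Prime.coprime_iff_not_dvd Nat.prime_two).2 (by omega))
  have c3 : Nat.Coprime 3 M := (Nat.Prime.coprime_iff_not_dvd Nat.prime_three).2 (by omega)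
  refine ⟨3 * M, by omega, List.replicate (4 * M) ((M + 2 : ℕ) : ZMod (3 * M)), by simp; omega,
    Or.inl ?_, ?_, by simp; omega⟩
  · have : NeZero (3 * M) := ⟨by omega⟩
    ext a b
    rw [← sub_eq_zero, ← ZMod.natCast_zmod_val (_ - _), ZMod.natCast_eq_zero_iff]
    refine c3.mul_dvd_of_dvd_of_dvd ?_ ?_
    · rw [← ZMod.natCast_eq_zero_iff, ← map_natCast f, ZMod.natCast_zmod_val, map_sub, rep, map,
        fk, zero]
      fin_cases a <;> fin_cases b <;> simp
    · rw [← ZMod.natCast_eq_zero_iff, ← map_natCast g, ZMod.natCast_zmod_val, map_sub, rep, map,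
        gk, two]
      fin_cases a <;> fin_cases b <;> simp
  rintro ⟨a₁, aₙ, b₁, bₘ, a, b, ha, hb, -, hs, hr⟩
  rw [List.reverse_replicate, or_self] at hr
  have hl := hr.perm.length_eq
  have eb : b = List.replicate b.length _ := List.eq_replicate_of_mem
    (fun x hx => List.eq_of_mem_replicate (hr.perm.subset (by simp [hx])))
  have la := List.length_pos_iff.2 ha
  have lb := List.length_pos_iff.2 hb
  simp only [List.length_append, List.length_cons, List.length_replicate] at hl
  have e : Mat (b₁ :: b ++ [bₘ]) 1 1 = -Mat b 0 0 := by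
    simp [Mat, Matrix.mul_apply, Fin.sum_univ_two]
  rw [eb, rep, ← eb] at e
  have e1 := congrArg f e
  have e2 := congrArg g e
  rw [map_neg, map, fk, zero] at e1
  rw [map_neg, map, gk, two] at e2
  have lt : b.length % 4 < 4 := Nat.mod_lt _ (by norm_num)
  rcases hs with h | h <;> rw [h] at e1 e2
  · have h1 : b.length % 4 = 2 := by
      simp only [Matrix.one_apply_eq, map_one] at e1
      revert e1
      generalize b.length % 4 = r at lt
      revert r
      decide
    have h2 : M ∣ b.length + 2 := (ZMod.natCast_eq_zero_iff _ _).1 (by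
      simp at e2
      push_cast
      linear_combination e2)
    have := Nat.le_of_dvd (by omega) (c4.mul_dvd_of_dvd_of_dvd (by omega) h2)
    omega
  · have h1 : b.length % 4 = 0 := by
      simp only [Matrix.neg_apply, Matrix.one_apply_eq, map_neg, map_one] at e1
      revert e1
      generalize b.length % 4 = r at lt
      revert r
      decide
    have h2 : M ∣ b.length := (ZMod.natCast_eq_zero_iff _ _).1 (by simpa using e2)
    have := Nat.le_of_dvd (by omega) (c4.mul_dvd_of_dvd_of_dvd (by omega) h2)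
    omega

end Pool.Agent.Results.MP_8835a9_co.Long
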